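import Pool.Agent.Q224.RY.C
set_option autoImplicit false

/-!
# Finitely many rays force somewhere dense orbits only in dimension one

`Forcing 𝕜 V` says: there are finitely many rays in `V` such that every finitely generated
commutative linear semigroup with an orbit coarsely dense along these rays has a somewhere dense
orbit. For a finite-dimensional real or complex vector space `V` this holds if and only if the
dimension of `V` over its field is at most one.

Dimension at least two: let `w 1, …, w m` be nonzero vectors. Choose a linear functional `l` with
`l (w i) ≠ 0` for all `i`, and `e ≠ 0` with `l e = 0`. The maps `x ↦ a x + l(x) u` with `a ≠ 0` and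
`l u = 0` commute. Let `l v = 1`. There are such maps `T i` which send `v` to `w i`; they and
finitely many positive scalars generate a semigroup with an orbit that is dense in all the rays. The
function `h(x) = Re (g(x) / l(x))`, where `g e = 1`, satisfies `h(T i x) = h(x) + γ i`, and if `v` is
moved far in the direction `- e`, then all `γ i` are positive; so `h` takes only a discrete set of
values on every orbit with `l ≠ 0`.

Dimension one: a finitely generated semigroup of scalars all of modulus at least one has only
polylogarithmically many moduli, so coarse density along a ray gives elements of modulus less than
one and greater than one. Then the closure of the semigroup is a group, and it contains all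
positive numbers. In the complex case two rays at an angle which is not a rational multiple of `π`
give density.
-/

namespace Pool.Agent.Results.MP_c0f1e3_an.DimensionOne

open Pool.Agent.Q224.RY Module

universe u

theorem result :
    (∀ (V : Type u) [NormedAddCommGroup V] [NormedSpace ℝ V] [FiniteDimensional ℝ V],
      Forcing ℝ V ↔ finrank ℝ V ≤ 1) ∧
    (∀ (V : Type u) [NormedAddCommGroup V] [NormedSpace ℂ V] [FiniteDimensional ℂ V],
      Forcing ℂ V ↔ finrank ℂ V ≤ 1) := by
  constructor
  · intro V _ _ _
    constructor
    · intro h
      by_contra hcon
      exact not_forcing (by omega) h
    · intro h
      rcases Nat.lt_or_ge 0 (finrank ℝ V) with h0 | h0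
      · exact forcing_real (by omega)
      · have : Subsingleton V := Module.finrank_zero_iff.mp (by omega : finrank ℝ V = 0)
        exact forcing_zero
  · intro V _ _ _
    constructor
    · intro h
      by_contra hcon
      exact not_forcing (by omega) h
    · intro h
      rcases Nat.lt_or_ge 0 (finrank ℂ V) with h0 | h0
      · exact forcing_complex (by omega)
      · have : Subsingleton V := Module.finrank_zero_iff.mp (by omega : finrank ℂ V = 0)
        exact forcing_zero

end Pool.Agent.Results.MP_c0f1e3_an.DimensionOne
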